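import Pool.Agent.V5helper87.LP.Uniform

/-!
# MP_855f4c_ag: the monodromy-weight conjecture in bounded families, for almost all residue
characteristics

Idea of the proof. By Noetherian induction and Hironaka's theorem we are reduced to a smooth proper
family over an affine scheme `U` which is the complement of a divisor `D` with strict normal
crossings relative to `ℤ[1/M]` in a smooth and proper scheme `P` over `ℤ[1/M]`. Let `O` be a henselian
discrete valuation ring of characteristic zero with finite residue field `k` of characteristic
larger than `M`. By the valuative criterion, a point `y` of `U` with values in the fraction field
extends to an arc `t : Spec O → P`. As `P` is smooth and `D` has normal crossings, there is an arc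
`t' : Spec k[[τ]] → P` in equal characteristic which passes through the same point of the special
fibre and has the same intersection numbers with the components of `D`. The tame fundamental group of
the complement of `D` in the henselization of `P` in this point is an extension of the Galois group of
`k` by an abelian group, on which the Frobenius acts by multiplication with the number of elements of
`k`; so the monodromy operators for the two arcs agree, and the Frobenius elements agree up to an
element of this abelian group. Deligne's theorem for the second arc implies the conjecture for the
first one: it is shown by linear algebra that the additional element is of finite order prime to `q`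
on the graded pieces of the monodromy filtration and does not change the weights.
-/

set_option autoImplicit false

open CategoryTheory CategoryTheory.Limits AlgebraicGeometry

universe u v

namespace Pool.Agent.Results.MP_855f4c_ag.BoundedFamilies

open Pool.Agent.V5helper87.LP

/-- **The monodromy-weight conjecture in bounded families, for almost all residue
characteristics.** Let `g : 𝒳 ⟶ S` be a smooth proper family over a scheme `S` of finite type over
`ℤ`. There is a number `p₀` (which only depends on the family) such that, for all primes `ℓ`, all
henselian discrete valuation rings `O` of characteristic zero with finite residue field of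
characteristic `p > p₀`, `p ≠ ℓ`, and all points of `S` with values in the fraction field `K` of `O`,
the cohomology groups `H^m(X_{\bar K})` of the fibre `X` of the family in this point are mw pure of
weight `m`. -/
theorem result (hH : Hironaka) (𝒳 S : Scheme.{0}) (s : S ⟶ Spec (.of ℤ)) [LocallyOfFiniteType s]
    [QuasiCompact s] (g : 𝒳 ⟶ S) (hg : SmoothProper g) :
    ∃ p₀ : ℕ, ∀ (Ω : Type u) [Field Ω] [CharZero Ω] [IsAlgClosed Ω] (T : CohData.{u, v} Ω) (ℓ : ℕ),
      IsEtaleCohomology T ℓ → ∀ B : Trait, CharZero B.O → p₀ < B.p → B.p ≠ ℓ →
      ∀ (y : Spec (.of B.K) ⟶ S) (X : Scheme.{0}) (str : X ⟶ Spec (.of B.K)),
        IsFibre g y str → ∀ m : ℕ, (T.H B str m).IsPure B.q m := by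
  obtain ⟨p₀, h⟩ := bounded.{u, v} hH s g hg
  exact ⟨p₀, fun Ω _ _ _ T ℓ hT B hB hp hℓ y X str hX m => h Ω T ℓ hT B hB hp hℓ y str hX m⟩

end Pool.Agent.Results.MP_855f4c_ag.BoundedFamilies
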