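import Pool.Agent.V5helper92.WC.Main

/-!
# The weight-monodromy conjecture for schemes built from its known cases, and trilinear forms

For a scheme `X` over a field of characteristic zero the graded pieces `Gr^W_w H^n_c(X)` of the cohomology
with compact support are motives (André's motives, with their tensor product); `T` are such theories of
motives over the local fields `K` and over `ℚ`, with their `ℓ`-adic realizations over `K̄` (coefficients
`Ω = ℚ̄_ℓ`), given with the action of a geometric Frobenius and the monodromy operator.
`H^n(X_{K̄}) = Gr^W_n H^n_c(X_{K̄})` for smooth projective varieties.

For a class `S` of schemes over `k`, the schemes which are *built from schemes of dimension at most `d` and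
from `S`* form the smallest class `BuiltFrom k d S` of schemes over `k` which contains `S` and the separated
schemes of finite type of dimension at most `d` and which is stable under isomorphisms, closed-open
decompositions (two of the three schemes are in the class, then so is the third), affine bundles of
Jouanolou's type, the passage from `X × 𝔾_m` to `X`, products of affine schemes, and the passage from `Y`
to `X` for finite free coverings `Y → X` of affine schemes.

The class `Known` over a local field `K`: schemes with good reduction, abelian varieties, smooth projective
set-theoretic complete intersections in projective spaces, the hypersurfaces `f = 1` for all smooth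
forms `f`, and the complete intersections in tori which are nondegenerate with respect to their Newton
polytopes. For these schemes the mw purity of all graded pieces is known (Deligne, Grothendieck,
Scholze); these results are the hypothesis `KnownCases`.

The class `BuiltFrom k n S`, `n ≥ 1`, is closed under preimages (`Preimages`, over any field `k`, for any
`S`): it contains `F⁻¹(Z)` (hence also its complement) for all closed subschemes `Z` of dimension at most
`n` of affine spaces and all maps `F = f_1 × ⋯ × f_m` given by polynomials `f_i` in disjoint sets of variables
which are homogeneous of degrees `e_i ≠ 0` for some integer weights, if the hypersurfaces `f_i = 1` are in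
the class. So the class of these polynomials `f` is closed under compositions `Q(f_1, …, f_m)`, `m ≤ n + 1`,
in disjoint sets of variables, `Q` weighted homogeneous of degree `e ≠ 0`. Over a local field all smooth
forms are of this kind for `S = Known`.

Idea of the proof. The category of motives is semisimple, so the motives with mw pure realization of a
given weight form a Serre class, and this class is compatible with tensor products. Hence the property
that all graded pieces are mw pure has all the stability properties in the definition of `BuiltFrom`. By
Hironaka's theorem it holds for all schemes of dimension at most `n` if it holds for the smooth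
projective varieties of dimension at most `n`, and for `n = 2` these are known. The reduction to
trilinear forms and hypergraphs is the theorem `TrilinearForms` of helper77; schemes built from surfaces
are due to helper94.
-/

set_option autoImplicit false

open CategoryTheory AlgebraicGeometry
open Pool.Agent.Y116.UV Pool.Agent.V5helper77.GW Pool.Agent.V5helper77.WM
  Pool.Agent.V5helper94.WB Pool.Agent.V5helper92.WC

namespace Pool.Agent.Results.MP_855f4c_ag.BuiltFromKnownCases

/-- **The weight-monodromy conjecture for schemes built from its known cases.** Let `K` be a henselian
local field of characteristic zero with finite residue field of characteristic different from `ℓ`; say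
that a scheme `X` over `K` has the property `P` if all `Gr^W_w H^i_c(X_{K̄})` are mw pure of weight `w`.
(1) If `P` holds for a class `S` of schemes over `K`, then it holds for all schemes over `K` which are built
from schemes of dimension at most two and from `S`; so it holds for the schemes built from schemes of
dimension at most two and from the class `Known`: good reduction, abelian varieties, set-theoretic
complete intersections, `{f = 1}` for smooth forms `f`, nondegenerate complete intersections in tori.
(2) For every field `k`, every class `S` and `n ≥ 1` the class of schemes over `k` which are built from
schemes of dimension at most `n` and from `S` is closed under preimages `F⁻¹(Z)`: `Z` is a closed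
subscheme of dimension at most `n` of an affine space, `F = f_1 × ⋯ × f_m`, the `f_i` are polynomials of
weighted degrees `e_i ≠ 0` in disjoint sets of variables, and the hypersurfaces `f_i = 1` are in the class.
So over `K` as above all `F⁻¹(Z)`, `dim Z ≤ 2`, `f_i` any smooth forms in disjoint sets of variables, have the
property `P`.
(3) For every `n` the following are equivalent: the conjecture for all smooth projective varieties over
`K` of dimension at most `n`; `P` for all separated schemes of finite type over `K` of dimension at most
`n`; `P` for all hypersurfaces `S(x, y, z) = 1`, `S` a trilinear form over `K` with a block of at most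
`n + 2` variables; for every class `S` with `P` the property `P` for all schemes which are built from
schemes of dimension at most `n` and from `S`.
(4) The conjecture for all smooth projective varieties over all such `K` is equivalent to `P`, for all
such `K`, for the smooth affine cubic hypersurfaces `∑_{(i, j, k) ∈ H} x_i y_j z_k = 1` over `ℚ`, `H` any
tripartite hypergraph. -/
theorem result {Ω : Type} [Field Ω] [CharZero Ω] (ℓ : ℕ) (T : Data Ω) (hT : IsTheory ℓ T)
    (ten : ∀ B : Trait, (T.loc B).C → (T.loc B).C → (T.loc B).C) (hten : IsTensor ℓ T ten)
    (hH : ∀ (k : Type) [Field k] [CharZero k], Hironaka k) (hK : KnownCases ℓ T) :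
    (∀ B : Trait, B.p ≠ ℓ → BuiltPure (T.loc B) B.q 2 ∧ KnownPure T B) ∧
    (∀ (k : Type) [Field k] (S : Sch k → Prop) (n : ℕ), 1 ≤ n → Preimages k n (BuiltFrom k n S)) ∧
    (∀ B : Trait, B.p ≠ ℓ → FormsUpTo (T.loc B) B.q 2) ∧
    (∀ B : Trait, B.p ≠ ℓ → ∀ n : ℕ,
      ((T.loc B).SmProjUpTo B.q n ↔ (T.loc B).SchemesUpTo B.q n) ∧
      ((T.loc B).SmProjUpTo B.q n ↔ (T.loc B).CubicsUpTo B.q (n + 2)) ∧
      ((T.loc B).SmProjUpTo B.q n ↔ BuiltPure (T.loc B) B.q n)) ∧
    (WeightMonodromy ℓ T ↔ HypergraphCubics ℓ T) := by
  have h2 := fun (B : Trait) (hB : B.p ≠ ℓ) =>
    (smProj_iff_builtPure hT hten hH B hB).mp (hT.surfaces B hB)
  refine ⟨fun B hB => ⟨h2 B hB, h2 B hB _ (hK B hB)⟩, fun _ _ _ _ hn => preimages_built hn,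
    fun B hB => forms_of_builtPure (by norm_num) (h2 B hB) fun N f hf => hK B hB _ (.level f hf),
    fun B hB n => ?_, graph_iff hT hH⟩
  exact ⟨(local_graded hT hH B hB n).1, (local_graded hT hH B hB n).2,
    smProj_iff_builtPure hT hten hH B hB⟩

end Pool.Agent.Results.MP_855f4c_ag.BuiltFromKnownCases
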