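import Pool.Agent.V5helper87.WM.Lift

/-!
# MP_855f4c_ag: mw purity when the special fibre lifts to characteristic zero

Let `X` be a projective strictly semistable scheme over `O`, of any relative dimension. Suppose that
the special fibre `Y`, with an ample class which comes from `X`, lifts to characteristic zero as a
projective normal crossing variety. No logarithmic structure is lifted: the lift need not be the
special fibre of a semistable family, and the line bundles `O_Y(Y)` etc. need not lift. Then all
`H^k(X_{\bar K})` are mw pure of weight `k`.

Examples: `X` is obtained from a divisor `f_1 ⋯ f_m = π g` in a smooth projective scheme `P` over `O`,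
of any kind, by blowing up components of the special fibre; or `H^2(Y, T_Y) = H^2(Y, O_Y) = 0`.

Idea of the proof. By smooth and proper base change the cohomology of the strata `Y^(a+1)` is the
cohomology of smooth projective complex varieties, the restriction maps `ρ` are morphisms of real
Hodge structures, and the Gysin maps `τ` are their transposes. Let `Λ` be the dual Lefschetz operator
and take the inner products given by the Hodge-Riemann relations. Then the adjoints are
`ρ^* = [Λ, τ]` and `τ^* = -[Λ, ρ]`; this holds for all operators of weight one with respect to `sl_2`
which commute with the Lefschetz operator. In particular `ρ τ^* + τ^* ρ = 0` and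
`ρ ρ^* + ρ^* ρ = τ τ^* + τ^* τ`. With suitable weights on the summands of the `E_1` term, the
Laplacian `d d^* + d^* d` of the differential `d = ρ + τ` is then the same operator
`a (ρ ρ^* + ρ^* ρ) + ρ^* ρ + τ τ^*` on the summand `H(Y^(a+1))` of each column. So every `E_2` class is
represented by a harmonic cocycle, on which the identity `N^r` between the columns `-r` and `r` is
bijective.
-/

set_option autoImplicit false

universe v

namespace Pool.Agent.Results.MP_855f4c_ag.LiftableSpecialFibre

open Pool.Agent.Y143 Pool.Agent.V5helper87.WM

/-- **The monodromy-weight conjecture when the special fibre lifts to characteristic zero.** Let `X`
be the cohomology of a projective strictly semistable scheme of relative dimension `n` over a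
henselian discrete valuation ring with finite residue field with `q` elements: the cohomology of the
strata `Y^(a+1)` of the special fibre with its restriction and Gysin maps, the cohomology of the
geometric generic fibre and the weight spectral sequence of Rapoport and Zink, with coefficients in
`ℂ` (via an isomorphism of an algebraic closure of `ℚ_ℓ` with `ℂ`). Suppose that the special fibre with
its ample class lifts to characteristic zero as a normal crossing variety. Then the `H^k` of the
geometric generic fibre are mw pure of weight `k`, for all `k`. -/
theorem result {Γ : Type} {n q : ℕ} (X : SemistableModel.{0, v} ℂ Γ n q)
    (_Z : CharZeroLift X.toSpecialFibre) (k : ℕ) :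
    IsMWPure q k (X.actV k X.frob) (X.N k) :=
  mw_of_lift X _Z k

end Pool.Agent.Results.MP_855f4c_ag.LiftableSpecialFibre
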