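import Pool.Agent.V5helper87.NF.Main

/-!
# MP_855f4c_ag: the monodromy-weight conjecture for the fibres close to a semistable fibre

Let `f : X ⟶ C` be a proper family over a curve over a `p`-adic field `K` which is strictly semistable
over the rational point `d` of `C`. The theorem says that the fibres `X_t` over the points `t` in a
`p`-adic neighbourhood of `d` satisfy the conjecture if the strata `D_I` of the fibre over `d` satisfy
it. (Here the semistable fibre `X_d` is a variety over `K`, which has bad reduction in general, as have
the fibres `X_t`.) In relative dimension three only the components of `X_d` matter, and the
conjecture holds for the fibres close to `d` if these are uniruled. For example, this is the case for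
degenerations of threefolds into unions of rational varieties, and for all semistable
degenerations of Calabi-Yau threefolds at boundary points at infinite distance.

Idea of the proof. Let `V` be the cohomology of the nearby fibre, with the monodromy operator `N`
around `d` and the monodromy operator `T` of `K`. Close to `d` the cohomology of the family is tame, so
that `H^m(X_t)` is `V` with the monodromy operator `e T + v N`, where `v` is the valuation of `x(t)`,
for a coordinate `x`, and `e` is the ramification index of the field of definition of `t`.

(1) The mw pure representations of fixed weight form an abelian category. So the homology of the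
complex `E_1^(-r - 1, m + r) → E_1^(-r, m + r) → E_1^(-r + 1, m + r)` of the weight spectral sequence is
mw pure of weight `m + r` for the local field `K`. By the weight-monodromy theorem in residue
characteristic zero, this is `Gr^M_r V` for the monodromy filtration `M` of `N`.

(2) Linear algebra: if `Gr^M_r V` is mw pure of weight `m + r` for `T`, for all `r`, then `V` is mw pure
of weight `m` for `T + ρ N`, for all but finitely many `ρ`. Indeed, let `T_0` be the part of degree
zero of `T` for the `sl(2)`-grading of `N`. Then `N` and `T_0` are the lowering operators of two
commuting representations of `sl(2)` and their sum is centred with respect to the weights of the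
Frobenius. The operator `T + ε ^ (-2) N` is conjugate to an operator which depends polynomially on `ε`
and has the value `N + T_0` (up to scaling) at `ε = 0`. So it is centred for all but finitely
many `ε`.
-/

set_option autoImplicit false

open CategoryTheory CategoryTheory.Limits AlgebraicGeometry

universe u v

namespace Pool.Agent.Results.MP_855f4c_ag.NearSemistableFibres

open Pool.Agent.V5helper87.NF

/-- **The monodromy-weight conjecture close to a semistable fibre.** Let `K` be the fraction field of
a henselian discrete valuation ring of characteristic zero with finite residue field of
characteristic `p ≠ ℓ`, `F` a proper family of relative dimension `n` over a curve `C` over `K`,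
smooth outside of the rational point `d` and strictly semistable at `d`. Suppose that each
intersection `D_I` of components of the fibre over `d` is of dimension at most two, or a uniruled
threefold, or satisfies the conjecture over `K`. Then there is a neighbourhood `U` of `d`, for the
topology given by the valuation, such that, for all extensions `K'` of `K` and all points `t ≠ d`
of `C` in `U` with values in `K'`, the cohomology groups `H^m` of the fibre of the family over `t`
are mw pure of weight `m`, for all `m`. -/
theorem result {Ω : Type u} [Field Ω] [CharZero Ω] [IsAlgClosed Ω] (T : NearData.{u, v} Ω) (ℓ : ℕ)
    (hT : T.IsEtale ℓ) (L : LocalField) (hL : CharZero L.K) (hp : L.p ≠ ℓ) (n : ℕ) (F : Fam L)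
    (hF : F.IsSemistable n)
    (hst : ∀ I : Finset (Fin F.r), I.Nonempty → I.card ≤ n + 1 →
      n + 1 - I.card ≤ 2 ∨ (n + 1 - I.card = 3 ∧ IsUniruled L 3 (F.stratumStr I)) ∨
        ∀ m : ℕ, (T.H L (F.stratumStr I) m).IsPure L.q m) :
    ∃ (S : Finset F.A) (v₀ : ℕ), ∀ (L' : LocalField) (E : Ext L L') (t : F.A →+* L'.K),
      (∀ a, t (F.φ a) = E.κ a) → F.CloseTo E S v₀ t → t F.x ≠ 0 →
      ∀ (X : Scheme.{0}) (str : X ⟶ Spec (.of L'.K)), F.FibreAt t str →
        ∀ m : ℕ, (T.H L' str m).IsPure L'.q m :=
  near_main hT hL hp hF hst

end Pool.Agent.Results.MP_855f4c_ag.NearSemistableFibres
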